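import Mathlib

/-!
# Monotone partial quotients in an alternating continued fraction sum algorithm
-/

set_option autoImplicit false

namespace Pool.Agent.Results.MP_7100ec_nt.NotMonotone

/-- `quot n y` is the partial quotient `a (n + 1)` of the regular continued fraction expansion
`y = [a 1, a 2, ...]` of a real number `y` with `0 < y ≤ 1`; it is `none` if `y` is not in `(0, 1]`
or the (finite) expansion has fewer than `n + 1` partial quotients. It is computed by iterating
`y ↦ 1 / y - ⌊1 / y⌋`. -/
noncomputable def quot : ℕ → ℝ → Option ℕ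
  | 0, y => if 0 < y ∧ y ≤ 1 then some ⌊1 / y⌋₊ else none
  | n + 1, y => if 0 < y ∧ y ≤ 1 then quot n (1 / y - ⌊1 / y⌋₊) else none

/-- the value of the continued fraction `[c 1, ..., c n]` (and `0` for the empty list) -/
noncomputable def ev : List ℕ → ℝ
  | [] => 0
  | c :: l => 1 / (c + ev l)

/-- `Reach x c b`: the procedure started at `x` reaches the state where the terms
`c = [c 1, ..., c m]` and `b = [b 1, ..., b n]` have been computed. -/
inductive Reach (x : ℝ) : List ℕ → List ℕ → Prop
  /-- `c 1 = a 1 (x) + 1` -/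
  | start (a : ℕ) : quot 0 x = some a → Reach x [a + 1] []
  /-- `b n = a n (x - p n / q n)`, where `p n / q n = [c 1, ..., c n]` -/
  | stepB (c b : List ℕ) (a : ℕ) : Reach x c b → c.length = b.length + 1 →
      quot b.length (x - ev c) = some a → Reach x c (b ++ [a])
  /-- `c (n + 1) = a (n + 1) (x - s n / t n) + 1`, where `s n / t n = [b 1, ..., b n]` -/
  | stepC (c b : List ℕ) (a : ℕ) : Reach x c b → c.length = b.length →
      quot b.length (x - ev b) = some a → Reach x (c ++ [a + 1]) b

lemma quot_zero {y : ℝ} {a : ℕ} (h0 : 0 < y) (h1 : y ≤ 1) (h2 : a * y ≤ 1) (h3 : 1 < (a + 1) * y) :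
    quot 0 y = some a := by
  have hf : ⌊1 / y⌋₊ = a := by
    rw [Nat.floor_eq_iff (by positivity)]
    rw [le_div_iff₀ h0, div_lt_iff₀ h0]
    exact ⟨h2, h3⟩
  rw [quot, if_pos ⟨h0, h1⟩, hf]

lemma quot_succ {y : ℝ} {a n r : ℕ} (h0 : 0 < y) (h1 : y ≤ 1) (h2 : a * y ≤ 1)
    (h3 : 1 < (a + 1) * y) (h : quot n (1 / y - a) = some r) : quot (n + 1) y = some r := by
  have hf : ⌊1 / y⌋₊ = a := by
    rw [Nat.floor_eq_iff (by positivity)]
    rw [le_div_iff₀ h0, div_lt_iff₀ h0]
    exact ⟨h2, h3⟩
  rw [quot, if_pos ⟨h0, h1⟩, hf]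
  exact h

lemma reach_example : Reach (75 / 377) [6, 27] [30, 28] := by
  have h1 : Reach (75 / 377) [6] [] := by
    refine Reach.start 5 (quot_zero (by norm_num) (by norm_num) (by norm_num) (by norm_num))
  have h2 : Reach (75 / 377) [6] [30] := by
    refine Reach.stepB [6] [] 30 h1 rfl ?_
    simp only [List.length_nil, ev]
    exact quot_zero (by norm_num) (by norm_num) (by norm_num) (by norm_num)
  have h3 : Reach (75 / 377) [6, 27] [30] := by
    refine Reach.stepC [6] [30] 26 h2 rfl ?_
    simp only [List.length_cons, List.length_nil, ev]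
    refine quot_succ (a := 6) (by norm_num) (by norm_num) (by norm_num) (by norm_num) ?_
    exact quot_zero (by norm_num) (by norm_num) (by norm_num) (by norm_num)
  refine Reach.stepB [6, 27] [30] 28 h3 rfl ?_
  simp only [List.length_cons, List.length_nil, ev]
  refine quot_succ (a := 30) (by norm_num) (by norm_num) (by norm_num) (by norm_num) ?_
  exact quot_zero (by norm_num) (by norm_num) (by norm_num) (by norm_num)

/-- **The second sequence is not always non-decreasing.** For `x = 75 / 377` the procedure gives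
`c 1 = 6`, `b 1 = 30`, `c 2 = 27`, `b 2 = 28`, so `b 2 < b 1`. Hence it is not true that for every
`x` in `(0, 1]` both sequences are non-decreasing. -/
theorem result : Reach (75 / 377) [6, 27] [30, 28] ∧
    ¬ ∀ x : ℝ, 0 < x → x ≤ 1 → ∀ c b : List ℕ, Reach x c b →
      c.Pairwise (· ≤ ·) ∧ b.Pairwise (· ≤ ·) := by
  refine ⟨reach_example, fun h => ?_⟩
  have h1 := (h _ (by norm_num) (by norm_num) _ _ reach_example).2
  revert h1
  decide

end Pool.Agent.Results.MP_7100ec_nt.NotMonotone
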